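import Pool.Agent.H537R3.FB.Gen
import Pool.Agent.H418R3.FB.Stmts

/-!
Task TaskAuto of project FB (helper418): the partial sum operators of a Schauder basis of a closed
subspace of `C(ℝ)` are equicontinuous.
-/

set_option autoImplicit false
open Set Topology Filter
open Pool.Agent.H418R3.FB

namespace Pool.Agent.H537R3.FB

/-- restriction to `[-k, k]` -/
noncomputable def rs (k : ℕ) : CR →ₗ[ℝ] C(Icc (-(k : ℝ)) k, ℝ) :=
  (ContinuousMap.compRightAlgHom ℝ ℝ
    (⟨Subtype.val, continuous_subtype_val⟩ : C(Icc (-(k : ℝ)) k, ℝ))).toLinearMap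

theorem rs_apply (k : ℕ) (f : CR) (t : Icc (-(k : ℝ)) k) : rs k f t = f t.1 := rfl

theorem rs_cont (k : ℕ) : Continuous (rs k) :=
  ContinuousMap.compRightAlgHom_continuous (R := ℝ) (A := ℝ) _

/-- the sup norm on `[-k, k]` -/
noncomputable def pp (k : ℕ) : Seminorm ℝ CR := (normSeminorm ℝ C(Icc (-(k : ℝ)) k, ℝ)).comp (rs k)

theorem pp_apply (k : ℕ) (f : CR) : pp k f = ‖rs k f‖ := rfl

theorem pp_cont (k : ℕ) : Continuous (pp k) := continuous_norm.comp (rs_cont k)

theorem pp_le {k : ℕ} {f : CR} {M : ℝ} (hM : 0 ≤ M) :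
    pp k f ≤ M ↔ ∀ t : ℝ, |t| ≤ k → |f t| ≤ M := by
  rw [pp_apply, ContinuousMap.norm_le _ hM]
  constructor
  · intro h t ht
    exact h ⟨t, abs_le.1 ht⟩
  · intro h t
    exact h t.1 (abs_le.2 t.2)

theorem le_pp {k : ℕ} {f : CR} {t : ℝ} (ht : |t| ≤ k) : |f t| ≤ pp k f :=
  (pp_le (apply_nonneg _ _)).1 le_rfl t ht

theorem pp_mono {i j : ℕ} (h : i ≤ j) (f : CR) : pp i f ≤ pp j f := by
  rw [pp_le (apply_nonneg _ _)]
  intro t ht
  exact le_pp (ht.trans (by exact_mod_cast h))

/-- convergence in `C(ℝ)` -/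
theorem tendsto_of_pp {ι : Type*} {l : Filter ι} {u : ι → CR} {x : CR}
    (h : ∀ k, Tendsto (fun i => pp k (u i - x)) l (𝓝 0)) : Tendsto u l (𝓝 x) := by
  rw [ContinuousMap.tendsto_iff_forall_isCompact_tendstoUniformlyOn]
  intro K hK
  obtain ⟨r, hr⟩ := hK.isBounded.subset_closedBall 0
  obtain ⟨k, hk⟩ := exists_nat_ge r
  rw [Metric.tendstoUniformlyOn_iff]
  intro ε hε
  filter_upwards [(h k).eventually (gt_mem_nhds hε)] with i hi t ht
  have h1 : |t| ≤ k := by
    have := hr ht
    rw [mem_closedBall_zero_iff] at this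
    exact this.trans hk
  rw [dist_comm, Real.dist_eq]
  exact (le_pp (f := u i - x) h1).trans_lt hi

theorem pp_of_tendsto {ι : Type*} {l : Filter ι} {u : ι → CR} {x : CR} (h : Tendsto u l (𝓝 x))
    (k : ℕ) : Tendsto (fun i => pp k (u i - x)) l (𝓝 0) := by
  have h1 := ((pp_cont k).tendsto 0).comp (show Tendsto (fun i => u i - x) l (𝓝 0) by
    simpa using h.sub_const x)
  rw [map_zero] at h1
  exact h1

/-- Task TaskAuto -/
theorem taskAuto : TaskAuto := by
  intro X e hX hSch
  obtain ⟨he, hex⟩ := hSch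
  -- the coefficients
  choose a ha hau using fun x : X => hex x.1 x.2
  have huniq : ∀ (x : X) (b : ℕ → ℝ),
      Tendsto (fun N => ∑ i ∈ Finset.range N, b i • e i) atTop (𝓝 (x : CR)) → b = a x :=
    fun x b hb => hau x b hb
  let A : X →ₗ[ℝ] (ℕ → ℝ) :=
    { toFun := a
      map_add' := by
        intro x y
        symm
        apply huniq
        have := (ha x).add (ha y)
        refine this.congr fun N => ?_
        rw [← Finset.sum_add_distrib]
        refine Finset.sum_congr rfl fun i _ => ?_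
        rw [Pi.add_apply, add_smul]
      map_smul' := by
        intro c x
        symm
        apply huniq
        have := (ha x).const_smul c
        refine this.congr fun N => ?_
        rw [Finset.smul_sum]
        refine Finset.sum_congr rfl fun i _ => ?_
        rw [Pi.smul_apply, smul_eq_mul, smul_smul]
        rfl }
  have hAa : ∀ x, A x = a x := fun _ => rfl
  let S : ℕ → X →ₗ[ℝ] X := fun N =>
    ∑ i ∈ Finset.range N, ((LinearMap.proj i : (ℕ → ℝ) →ₗ[ℝ] ℝ).comp A).smulRight ⟨e i, he i⟩
  have hS : ∀ N x, S N x = ∑ i ∈ Finset.range N, a x i • (⟨e i, he i⟩ : X) := by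
    intro N x
    simp only [S, LinearMap.sum_apply]
    rfl
  have hSc : ∀ N x, ((S N x : X) : CR) = ∑ i ∈ Finset.range N, a x i • e i := by
    intro N x
    rw [hS]
    push_cast
    rfl
  have hSs : ∀ N x, S (N + 1) x = S N x + a x N • (⟨e N, he N⟩ : X) := by
    intro N x
    rw [hS, hS, Finset.sum_range_succ]
  have hSlim : ∀ x, Tendsto (fun N => ((S N x : X) : CR)) atTop (𝓝 (x : CR)) := by
    intro x
    simp only [hSc]
    exact ha x
  -- the coefficients of `e j`
  have hAe : ∀ j, a ⟨e j, he j⟩ = Pi.single j 1 := by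
    intro j
    symm
    apply huniq
    refine tendsto_const_nhds.congr' ?_
    filter_upwards [eventually_gt_atTop j] with N hN
    rw [Finset.sum_eq_single j]
    · simp
    · intro i _ hij
      rw [Pi.single_eq_of_ne hij, zero_smul]
    · intro h
      exact absurd (Finset.mem_range.2 hN) h
  have he0 : ∀ j, e j ≠ 0 := by
    intro j hj
    have h1 := hAe j
    have h2 : (⟨e j, he j⟩ : X) = 0 := Subtype.ext hj
    rw [h2, ← hAa, map_zero] at h1
    have := congrFun h1 j
    simp at this
  have hAS : ∀ N x i, i < N → a (S N x) i = a x i := by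
    intro N x i hi
    have h1 : ∀ j, A (a x j • (⟨e j, he j⟩ : X)) i = a x j * (Pi.single j 1 : ℕ → ℝ) i := by
      intro j
      rw [map_smul, hAa, hAe]
      rfl
    rw [← hAa, hS, map_sum, Finset.sum_apply]
    simp only [h1]
    rw [Finset.sum_eq_single i]
    · simp
    · intro j _ hji
      rw [Pi.single_eq_of_ne (Ne.symm hji), mul_zero]
    · intro h
      exact absurd (Finset.mem_range.2 hi) h
  have hSS : ∀ N x, S N (S N x) = S N x := by
    intro N x
    rw [hS N (S N x), hS N x]
    refine Finset.sum_congr rfl fun i hi => ?_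
    rw [← hS N x, hAS N x i (Finset.mem_range.1 hi)]
  -- the seminorms
  let p : ℕ → Seminorm ℝ X := fun k => (pp k).comp X.subtype
  have hp : ∀ k (x : X), p k x = pp k (x : CR) := fun _ _ => rfl
  have hbdd : ∀ k (x : X), BddAbove (range fun N => p k (S N x)) := by
    intro k x
    have h1 : Tendsto (fun N => p k (S N x)) atTop (𝓝 (p k x)) :=
      ((pp_cont k).tendsto _).comp (hSlim x)
    exact h1.bddAbove_range
  let q : ℕ → Seminorm ℝ X := fun k => Seminorm.of (fun x => ⨆ N, p k (S N x))
    (fun x y => by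
      refine ciSup_le fun N => ?_
      rw [map_add]
      exact (map_add_le_add (p k) _ _).trans
        (add_le_add (le_ciSup (hbdd k x) N) (le_ciSup (hbdd k y) N)))
    (fun c x => by
      rw [Real.mul_iSup_of_nonneg (norm_nonneg _)]
      refine congrArg iSup (funext fun N => ?_)
      rw [map_smul, map_smul_eq_mul])
  have hq : ∀ k (x : X), q k x = ⨆ N, p k (S N x) := fun _ _ => rfl
  have hqle : ∀ k (x : X) N, p k (S N x) ≤ q k x := fun k x N => le_ciSup (hbdd k x) N
  have hleq : ∀ k (x : X) M, (∀ N, p k (S N x) ≤ M) → q k x ≤ M := fun k x M h => ciSup_le h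
  have hpm : ∀ {i j : ℕ}, i ≤ j → ∀ x, p i x ≤ p j x := fun h x => pp_mono h _
  have hqm : ∀ {i j : ℕ}, i ≤ j → ∀ x, q i x ≤ q j x := fun h x =>
    hleq _ _ _ fun N => (hpm h _).trans (hqle _ _ _)
  have hpc : ∀ k (x0 : X), Continuous fun y => p k (x0 - y) := fun k x0 =>
    (pp_cont k).comp ((continuous_const.sub continuous_subtype_val))
  have hpn : ∀ x : X, ∀ U ∈ 𝓝 x, ∃ k : ℕ, ∃ δ > 0, ∀ y, p k (y - x) < δ → y ∈ U := by
    intro x U hU
    by_contra hcon
    push Not at hcon
    choose y hy hyU using fun k : ℕ => hcon k (1 / ((k : ℝ) + 1)) (by positivity)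
    have hlim : Tendsto y atTop (𝓝 x) := by
      rw [tendsto_subtype_rng]
      apply tendsto_of_pp
      intro k
      have h0 : Tendsto (fun n : ℕ => 1 / ((n : ℝ) + 1)) atTop (𝓝 0) :=
        tendsto_one_div_add_atTop_nhds_zero_nat
      refine tendsto_of_tendsto_of_tendsto_of_le_of_le' tendsto_const_nhds h0
        (Eventually.of_forall fun _ => apply_nonneg _ _) ?_
      filter_upwards [eventually_ge_atTop k] with n hn
      exact (pp_mono hn _).trans (hy n).le
    obtain ⟨N, hN⟩ := (hlim.eventually hU).exists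
    exact hyU N hN
  have hcomp : CompleteSpace X := hX.completeSpace_coe
  have hcg : (uniformity X).IsCountablyGenerated :=
    inferInstanceAs ((Filter.comap (Prod.map Subtype.val Subtype.val) (uniformity CR)).IsCountablyGenerated)
  have hbaire : BaireSpace X := inferInstance
  -- lower bound for the coefficients
  have hcoef : ∀ i, ∃ j, 0 < pp j (e i) := by
    intro i
    by_contra hcon
    push Not at hcon
    apply he0 i
    ext t
    obtain ⟨k, hk⟩ := exists_nat_ge |t|
    have h1 := (le_pp (f := e i) hk).trans (hcon k)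
    exact abs_nonpos_iff.1 h1
  have hcf : ∀ i j (x : X), |a x i| * pp j (e i) ≤ 2 * q j x := by
    intro i j x
    have h1 : p j (a x i • (⟨e i, he i⟩ : X)) = |a x i| * pp j (e i) := by
      rw [map_smul_eq_mul, Real.norm_eq_abs]
      rfl
    have h2 : a x i • (⟨e i, he i⟩ : X) = S (i + 1) x - S i x := by
      rw [hSs]; abel
    rw [← h1, h2]
    refine (map_sub_le_add _ _ _).trans ?_
    linarith [hqle j x (i + 1), hqle j x i]
  have hH : ∀ (u : ℕ → X) (x : X), (∀ n, Tendsto (fun k => p n (u k - x)) atTop (𝓝 0)) →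
      (∀ n, ∀ ε > 0, ∃ N, ∀ k ≥ N, ∀ l ≥ N, q n (u k - u l) < ε) →
      ∀ n, Tendsto (fun k => q n (u k - x)) atTop (𝓝 0) := by
    intro u x hux hcau
    -- the coefficients converge
    have hc : ∀ i, ∃ c, Tendsto (fun k => a (u k) i) atTop (𝓝 c) := by
      intro i
      obtain ⟨j, hj⟩ := hcoef i
      apply cauchySeq_tendsto_of_complete
      rw [Metric.cauchySeq_iff]
      intro ε hε
      obtain ⟨N, hN⟩ := hcau j (ε * pp j (e i) / 2) (by positivity)
      refine ⟨N, fun k hk l hl => ?_⟩
      have h1 := hcf i j (u k - u l)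
      have h2 := hN k hk l hl
      have h3 : a (u k - u l) i = a (u k) i - a (u l) i := by
        rw [← hAa, map_sub]; rfl
      rw [h3] at h1
      rw [Real.dist_eq]
      by_contra hge
      push Not at hge
      have h4 : ε * pp j (e i) ≤ |a (u k) i - a (u l) i| * pp j (e i) :=
        mul_le_mul_of_nonneg_right hge hj.le
      linarith
    choose c hc using hc
    let b : ℕ → CR := fun N => ∑ i ∈ Finset.range N, c i • e i
    have hb : ∀ N, Tendsto (fun k => ((S N (u k) : X) : CR)) atTop (𝓝 (b N)) := by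
      intro N
      simp only [hSc]
      exact tendsto_finsetSum _ fun i _ => (hc i).smul_const (e i)
    have hbu : ∀ j, ∀ ε > 0, ∃ K, ∀ k ≥ K, ∀ N, pp j ((S N (u k) : CR) - b N) ≤ ε := by
      intro j ε hε
      obtain ⟨K, hK⟩ := hcau j ε hε
      refine ⟨K, fun k hk N => ?_⟩
      have h1 : Tendsto (fun l => pp j ((S N (u k) : CR) - (S N (u l) : CR))) atTop
          (𝓝 (pp j ((S N (u k) : CR) - b N))) :=
        ((pp_cont j).tendsto _).comp (tendsto_const_nhds.sub (hb N))
      refine le_of_tendsto h1 ?_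
      filter_upwards [eventually_ge_atTop K] with l hl
      have h2 := hqle j (u k - u l) N
      rw [map_sub] at h2
      exact h2.trans (hK k hk l hl).le
    have hbx : Tendsto b atTop (𝓝 (x : CR)) := by
      apply tendsto_of_pp
      intro j
      rw [Metric.tendsto_atTop]
      intro ε hε
      obtain ⟨K, hK⟩ := hbu j (ε / 4) (by positivity)
      obtain ⟨K', hK'⟩ := (Metric.tendsto_atTop.1 (hux j)) (ε / 4) (by positivity)
      set k := max K K' with hk
      obtain ⟨N0, hN0⟩ := (Metric.tendsto_atTop.1 (pp_of_tendsto (hSlim (u k)) j)) (ε / 4)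
        (by positivity)
      refine ⟨N0, fun N hN => ?_⟩
      have h1 := hK k (le_max_left _ _) N
      have h2 := hK' k (le_max_right _ _)
      have h3 := hN0 N hN
      rw [Real.dist_0_eq_abs, abs_of_nonneg (apply_nonneg _ _)] at h2 h3 ⊢
      have e1 : b N - (x : CR) = (((S N (u k) : X) : CR) - (u k : CR)) +
        (((u k - x : X)) : CR) - (((S N (u k) : X) : CR) - b N) := by
        push_cast
        abel
      rw [e1]
      have h4 := map_sub_le_add (pp j) ((((S N (u k) : X) : CR) - (u k : CR)) +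
        (((u k - x : X)) : CR)) (((S N (u k) : X) : CR) - b N)
      have h5 := map_add_le_add (pp j) (((S N (u k) : X) : CR) - (u k : CR))
        (((u k - x : X)) : CR)
      have h6 : p j (u k - x) = pp j ((u k - x : X) : CR) := rfl
      linarith
    have hcx : c = a x := huniq x c hbx
    have hbS : ∀ N, b N = ((S N x : X) : CR) := by
      intro N
      rw [hSc, ← hcx]
    intro j
    rw [Metric.tendsto_atTop]
    intro ε hε
    obtain ⟨K, hK⟩ := hbu j (ε / 2) (by positivity)
    refine ⟨K, fun k hk => ?_⟩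
    rw [Real.dist_0_eq_abs, abs_of_nonneg (apply_nonneg _ _)]
    refine lt_of_le_of_lt (hleq _ _ (ε / 2) fun N => ?_) (by linarith)
    rw [map_sub]
    have h1 := hK k hk N
    rw [hbS N] at h1
    exact h1
  choose l C hC hmain using gen p q hpm hqm hpc hpn hH
  refine ⟨S, l, C, ?_, hSlim, hSS, ?_, hC, ?_⟩
  · intro x
    rw [hS]
    simp
  · intro N
    exact ⟨(LinearMap.proj N : (ℕ → ℝ) →ₗ[ℝ] ℝ).comp A, ⟨e N, he N⟩, fun x => hSs N x⟩
  · intro k N x M hM t ht
    have hM0 : 0 ≤ M := (abs_nonneg _).trans (hM 0 (by simp))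
    have h1 : pp (l k) (x : CR) ≤ M := (pp_le hM0).2 hM
    have h2 := (hqle k x N).trans (hmain k x)
    have h3 : pp k ((S N x : X) : CR) ≤ C k * M :=
      h2.trans (mul_le_mul_of_nonneg_left h1 (hC k).le)
    exact (le_pp ht).trans h3

end Pool.Agent.H537R3.FB
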