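import Mathlib

/-!
A Banach type theorem for two countable families of seminorms (real version of the recursion in
`Pool.Agent.Helper791Fre.CG`).
-/

set_option autoImplicit false
open Set Topology Filter

namespace Pool.Agent.H537R3.FB

variable {E : Type*} [AddCommGroup E] [Module ℝ E] [TopologicalSpace E]

/-- first step -/
theorem gen_step [BaireSpace E] (p q : ℕ → Seminorm ℝ E)
    (hpc : ∀ k x0, Continuous fun y => p k (x0 - y))
    (hpn : ∀ x : E, ∀ U ∈ 𝓝 x, ∃ k : ℕ, ∃ δ > 0, ∀ y, p k (y - x) < δ → y ∈ U)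
    (n : ℕ) {ε : ℝ} (hε : 0 < ε) :
    ∃ m : ℕ, ∃ δ > 0, ∀ x, p m x < δ → ∀ m' : ℕ, ∀ ε' > 0,
      ∃ y, q n y ≤ ε ∧ p m' (x - y) < ε' := by
  have hcl : ∀ (T : Set E) (x : E), x ∈ closure T → ∀ n, ∀ ε > 0, ∃ y ∈ T, p n (x - y) < ε := by
    intro T x h n ε hε
    have hU : {y | p n (x - y) < ε} ∈ 𝓝 x := by
      refine (isOpen_lt (hpc n x) continuous_const).mem_nhds ?_
      simpa using hε
    obtain ⟨y, hy1, hy2⟩ := mem_closure_iff_nhds.1 h _ hU
    exact ⟨y, hy2, hy1⟩
  obtain ⟨k, hk⟩ := nonempty_interior_of_iUnion_of_closed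
    (f := fun k : ℕ => closure {x : E | q n x ≤ k}) (fun _ => isClosed_closure) (by
      rw [eq_univ_iff_forall]
      intro x
      obtain ⟨k, hk⟩ := exists_nat_ge (q n x)
      exact mem_iUnion.2 ⟨k, subset_closure hk⟩)
  obtain ⟨x0, hx0⟩ := hk
  obtain ⟨m, δ, hδ, hm⟩ := hpn _ _ (isOpen_interior.mem_nhds hx0)
  have hball : ∀ y, p m (y - x0) < δ → y ∈ closure {x : E | q n x ≤ k} :=
    fun y hy => interior_subset (hm y hy)
  set K : ℝ := 2 * (k : ℝ) + 1 with hK
  have hK0 : 0 < K := by positivity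
  -- unscaled version
  have h1 : ∀ z, p m z < δ → ∀ m' : ℕ, ∀ ε' > 0,
      ∃ y, q n y ≤ K ∧ p m' (z - y) < ε' := by
    intro z hz m' ε' hε'
    obtain ⟨y1, hy1, hy1'⟩ := hcl _ _ (hball (x0 + z) (by simpa using hz)) m' _
      (half_pos hε')
    obtain ⟨y2, hy2, hy2'⟩ := hcl _ _ (hball x0 (by simpa using hδ)) m' _
      (half_pos hε')
    refine ⟨y1 - y2, ?_, ?_⟩
    · refine (map_sub_le_add _ _ _).trans ?_
      have a1 : q n y1 ≤ k := hy1
      have a2 : q n y2 ≤ k := hy2
      rw [hK]; linarith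
    · have e1 : z - (y1 - y2) = (x0 + z - y1) - (x0 - y2) := by abel
      rw [e1]
      refine (map_sub_le_add _ _ _).trans_lt ?_
      linarith
  refine ⟨m, δ * (ε / K), by positivity, fun x hx m' ε' hε' => ?_⟩
  have hc0 : (0 : ℝ) < K / ε := by positivity
  obtain ⟨y, hy1, hy2⟩ := h1 ((K / ε) • x) (by
    rw [map_smul_eq_mul, Real.norm_of_nonneg hc0.le]
    calc K / ε * p m x < K / ε * (δ * (ε / K)) := by gcongr
      _ = δ := by field_simp) m' (K / ε * ε') (by positivity)
  refine ⟨(ε / K) • y, ?_, ?_⟩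
  · rw [map_smul_eq_mul, Real.norm_of_nonneg (by positivity)]
    calc ε / K * q n y ≤ ε / K * K := by gcongr
      _ = ε := by field_simp
  · have e1 : x - (ε / K) • y = (ε / K) • ((K / ε) • x - y) := by
      rw [smul_sub, smul_smul]
      have : ε / K * (K / ε) = 1 := by field_simp
      rw [this, one_smul]
    rw [e1, map_smul_eq_mul, Real.norm_of_nonneg (by positivity)]
    calc ε / K * p m' ((K / ε) • x - y) < ε / K * (K / ε * ε') := by gcongr
      _ = ε' := by field_simp

/-- If `q`-Cauchy sequences that are `p`-convergent are `q`-convergent (to the same limit), then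
every `q n` is bounded by a multiple of some `p m`. -/
theorem gen [BaireSpace E] (p q : ℕ → Seminorm ℝ E)
    (hpm : ∀ {i j : ℕ}, i ≤ j → ∀ x, p i x ≤ p j x)
    (hqm : ∀ {i j : ℕ}, i ≤ j → ∀ x, q i x ≤ q j x)
    (hpc : ∀ k x0, Continuous fun y => p k (x0 - y))
    (hpn : ∀ x : E, ∀ U ∈ 𝓝 x, ∃ k : ℕ, ∃ δ > 0, ∀ y, p k (y - x) < δ → y ∈ U)
    (hH : ∀ (u : ℕ → E) (x : E), (∀ n, Tendsto (fun k => p n (u k - x)) atTop (𝓝 0)) →
      (∀ n, ∀ ε > 0, ∃ N, ∀ k ≥ N, ∀ l ≥ N, q n (u k - u l) < ε) →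
      ∀ n, Tendsto (fun k => q n (u k - x)) atTop (𝓝 0)) :
    ∀ n0 : ℕ, ∃ m : ℕ, ∃ C > 0, ∀ x, q n0 x ≤ C * p m x := by
  have main : ∀ n0 : ℕ, ∃ m : ℕ, ∃ δ > 0, ∀ x, p m x < δ → q n0 x ≤ 2 := by
    intro n0
    choose m δ hδ hstep using fun j : ℕ => gen_step p q hpc hpn (n0 + j)
      (ε := (1 / 2) ^ j) (by positivity)
    refine ⟨m 0, δ 0, hδ 0, fun x hx => ?_⟩
    -- the recursion
    have hrec : ∀ j : ℕ, ∀ z : {z : E // p (m j) z < δ j},
        ∃ y : E, q (n0 + j) y ≤ (1 / 2) ^ j ∧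
          p (max (m (j + 1)) (j + 1)) (z.1 - y) < min (δ (j + 1)) ((1 / 2) ^ (j + 1)) :=
      fun j z => hstep j z.1 z.2 _ _ (lt_min (hδ _) (by positivity))
    choose F hF1 hF2 using hrec
    let Z : (j : ℕ) → {z : E // p (m j) z < δ j} := fun j =>
      Nat.rec ⟨x, hx⟩ (fun j z => ⟨z.1 - F j z,
        ((hpm (le_max_left _ _) _).trans_lt (hF2 j z)).trans_le (min_le_left _ _)⟩) j
    have hZ0 : (Z 0).1 = x := rfl
    have hZs : ∀ j, (Z (j + 1)).1 = (Z j).1 - F j (Z j) := fun j => rfl
    set y : ℕ → E := fun j => F j (Z j) with hy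
    have hsum : ∀ j, (∑ i ∈ Finset.range j, y i) = x - (Z j).1 := by
      intro j
      induction j with
      | zero => simp [hZ0]
      | succ j ih => rw [Finset.sum_range_succ, ih, hZs]; abel
    have hZlim : ∀ n, Tendsto (fun j => p n ((Z j).1)) atTop (𝓝 0) := by
      intro n
      rw [← tendsto_add_atTop_iff_nat 1]
      have hl : Tendsto (fun j : ℕ => (1 / 2 : ℝ) ^ (j + 1)) atTop (𝓝 0) :=
        (tendsto_pow_atTop_nhds_zero_of_lt_one (by norm_num) (by norm_num)).comp
          (tendsto_add_atTop_nat 1)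
      refine tendsto_of_tendsto_of_tendsto_of_le_of_le' tendsto_const_nhds hl
        (Eventually.of_forall fun _ => apply_nonneg _ _) ?_
      filter_upwards [eventually_ge_atTop n] with j hj
      have h1 := (hF2 j (Z j)).le.trans (min_le_right _ _)
      refine le_trans ?_ h1
      rw [hZs]
      exact hpm (le_trans (by omega) (le_max_right _ _)) _
    -- partial sums
    have hB : ∀ j i, j ≤ n0 + i → q j (y i) ≤ (1 / 2) ^ i := fun j i hji =>
      (hqm hji _).trans (hF1 i (Z i))
    have tail : ∀ j N k, j ≤ n0 + N → q j ((∑ i ∈ Finset.range (N + k), y i) -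
        ∑ i ∈ Finset.range N, y i) ≤ 2 * (1 / 2) ^ N - 2 * (1 / 2) ^ (N + k) := by
      intro j N k hj
      induction k with
      | zero => simp
      | succ k ih =>
        rw [← add_assoc, Finset.sum_range_succ]
        have e1 : (∑ i ∈ Finset.range (N + k), y i) + y (N + k) -
            ∑ i ∈ Finset.range N, y i = ((∑ i ∈ Finset.range (N + k), y i) -
            ∑ i ∈ Finset.range N, y i) + y (N + k) := by abel
        rw [e1]
        have h1 := hB j (N + k) (by omega)
        have h2 := map_add_le_add (q j) ((∑ i ∈ Finset.range (N + k), y i) -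
          ∑ i ∈ Finset.range N, y i) (y (N + k))
        have h3 : (1 / 2 : ℝ) ^ (N + k + 1) = (1 / 2) ^ (N + k) * (1 / 2) := pow_succ _ _
        rw [h3]
        linarith
    have tail' : ∀ j N k, j ≤ n0 + N → N ≤ k → q j ((∑ i ∈ Finset.range k, y i) -
        ∑ i ∈ Finset.range N, y i) ≤ 2 * (1 / 2) ^ N := by
      intro j N k hj hk
      obtain ⟨l, rfl⟩ := Nat.exists_eq_add_of_le hk
      have h1 := tail j N l hj
      have h2 : (0 : ℝ) < (1 / 2) ^ (N + l) := by positivity
      linarith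
    have hb := hH (fun k => ∑ i ∈ Finset.range k, y i) x
      (fun n => by
        have := hZlim n
        refine this.congr fun k => ?_
        rw [hsum k]
        have : x - (Z k).1 - x = - (Z k).1 := by abel
        rw [this, map_neg_eq_map])
      (by
      intro n ε hε
      have hlim : Tendsto (fun k : ℕ => 4 * (1 / 2 : ℝ) ^ k) atTop (𝓝 0) := by
        simpa using (tendsto_pow_atTop_nhds_zero_of_lt_one (by norm_num : (0 : ℝ) ≤ 1 / 2)
          (by norm_num)).const_mul 4
      obtain ⟨N, hN⟩ := (hlim.eventually (gt_mem_nhds hε)).exists_forall_of_atTop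
      refine ⟨max N n, fun k hk l hl => ?_⟩
      have h1 := tail' n (max N n) k (le_trans (le_max_right N n) (by omega)) hk
      have h2 := tail' n (max N n) l (le_trans (le_max_right N n) (by omega)) hl
      have h3 := hN (max N n) (le_max_left _ _)
      have e1 : (∑ i ∈ Finset.range k, y i) - ∑ i ∈ Finset.range l, y i =
        ((∑ i ∈ Finset.range k, y i) - ∑ i ∈ Finset.range (max N n), y i) -
        ((∑ i ∈ Finset.range l, y i) - ∑ i ∈ Finset.range (max N n), y i) := by abel
      rw [e1]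
      have h4 := map_sub_le_add (q n) ((∑ i ∈ Finset.range k, y i) -
        ∑ i ∈ Finset.range (max N n), y i)
        ((∑ i ∈ Finset.range l, y i) - ∑ i ∈ Finset.range (max N n), y i)
      linarith)
    -- bound
    have hcum : ∀ k, q n0 (∑ i ∈ Finset.range k, y i) ≤ 2 := by
      intro k
      have hh : ∀ k, q n0 (∑ i ∈ Finset.range k, y i) ≤ 2 - 2 * (1 / 2) ^ k := by
        intro k
        induction k with
        | zero => simp
        | succ k ih =>
          rw [Finset.sum_range_succ]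
          have h1 : q n0 (y k) ≤ (1 / 2) ^ k :=
            (hqm (by omega) _).trans (hF1 k (Z k))
          have h2 := map_add_le_add (q n0) (∑ i ∈ Finset.range k, y i) (y k)
          have h3 : (1 / 2 : ℝ) ^ (k + 1) = (1 / 2) ^ k * (1 / 2) := pow_succ _ _
          rw [h3]
          linarith
      have h2 : (0 : ℝ) < (1 / 2) ^ k := by positivity
      linarith [hh k]
    have hlim2 : Tendsto (fun k => q n0 ((∑ i ∈ Finset.range k, y i) - x) + 2) atTop
        (𝓝 (0 + 2)) := (hb n0).add_const 2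
    rw [zero_add] at hlim2
    refine ge_of_tendsto' hlim2 fun k => ?_
    have e1 : x = (∑ i ∈ Finset.range k, y i) - ((∑ i ∈ Finset.range k, y i) - x) := by abel
    have h1 := map_sub_le_add (q n0) (∑ i ∈ Finset.range k, y i)
      ((∑ i ∈ Finset.range k, y i) - x)
    rw [← e1] at h1
    linarith [hcum k]
  -- conclude
  intro n0
  obtain ⟨m, δ, hδ, hm⟩ := main n0
  refine ⟨m, 4 / δ, by positivity, fun x => ?_⟩
  have h0 : 0 ≤ p m x := apply_nonneg _ _
  rcases h0.lt_or_eq with h0 | h0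
  · have h1 := hm ((δ / (2 * p m x)) • x) (by
      rw [map_smul_eq_mul, Real.norm_of_nonneg (by positivity)]
      have : δ / (2 * p m x) * p m x = δ / 2 := by field_simp
      rw [this]; linarith)
    rw [map_smul_eq_mul, Real.norm_of_nonneg (by positivity)] at h1
    have h2 : q n0 x = (2 * p m x / δ) * (δ / (2 * p m x) * q n0 x) := by field_simp
    rw [h2]
    calc (2 * p m x / δ) * (δ / (2 * p m x) * q n0 x) ≤ (2 * p m x / δ) * 2 := by gcongr
      _ = 4 / δ * p m x := by ring
  · rw [← h0, mul_zero]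
    by_contra hne
    push Not at hne
    have h1 := hm ((3 / q n0 x) • x) (by
      rw [map_smul_eq_mul, ← h0, mul_zero]; exact hδ)
    rw [map_smul_eq_mul, Real.norm_of_nonneg (by positivity)] at h1
    have h2 : 3 / q n0 x * q n0 x = 3 := by field_simp
    linarith

end Pool.Agent.H537R3.FB
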